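import Pool.Agent.H11.PartMat

open Matrix H11.PM Kronecker

namespace H11.PM1

def A (F : Type*) [Field F] : Matrix (Fin 3 × Fin 2) (Fin 3 × Fin 2) (Option F) := fun p q =>
  if q.1 = p.1 + 2 then none else
    some (if p.1 = 2 ∧ q.1 = 0 then !![0, 1; 1, 1] p.2 q.2 else if p.2 = q.2 then 1 else 0)

variable (F : Type*) [Field F]

theorem mr3 : mr (A F) ≤ 3 := by
  refine mr_le (k := Fin 3)
    (.of fun p => ![!![1, 0, 0; 0, 1, 0], !![1, 0, -1; 0, 1, 1], !![1, 1, -1; 0, 1, 1]] p.1 p.2)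
    (.of fun k q => ![!![1, 0; 0, 1; 1, 0], !![1, 0; 0, 1; 0, 0], !![1, 1; 0, 0; 0, 1]] q.1 k q.2) ?_
  rintro ⟨i, s⟩ ⟨j, t⟩ a
  fin_cases i <;> fin_cases j <;> fin_cases s <;> fin_cases t <;>
    simp [A, mul_apply, Fin.sum_univ_three]

theorem fmr3 : 3 ≤ fmr (A F) := by
  refine le_ciInf fun b => ?_
  obtain ⟨N, hN, h⟩ := exists_mr (tens (A F) b)
  have one : ∀ i j : Fin 3, j ≠ i + 2 → ¬ (i = 2 ∧ j = 0) → N.submatrix
      (fun s : Fin 2 × Fin b => ((i, s.1), s.2)) (fun s : Fin 2 × Fin b => ((j, s.1), s.2)) = 1 := by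
    intro i j h1 h2
    ext s t
    refine hN _ _ _ ?_
    simp only [tens, A, h1, h2, if_false, Option.map_some, one_apply, Prod.ext_iff]
    by_cases s.1 = t.1 <;> by_cases s.2 = t.2 <;> simp [*]
  have h20 : N.submatrix (fun s : Fin 2 × Fin b => ((2, s.1), s.2))
      (fun s : Fin 2 × Fin b => ((0, s.1), s.2)) = !![0, 1; 1, 1] ⊗ₖ 1 := by
    ext s t
    refine hN _ _ _ ?_
    simp [tens, A, one_apply]
  have := three N (fun i (s : Fin 2 × Fin b) => ((i, s.1), s.2)) (!![0, 1; 1, 1] ⊗ₖ 1)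
    (one _ _ (by decide) (by decide)) (one _ _ (by decide) (by decide))
    (one _ _ (by decide) (by decide)) (one _ _ (by decide) (by decide)) (by
      rw [h20, one 2 2 (by decide) (by decide), mul_sub, mul_one, ← mul_kronecker_mul, mul_one,
        sub_eq_iff_eq_add, ← one_kronecker_one, ← add_kronecker]
      congr 1
      ext i j; fin_cases i <;> fin_cases j <;> simp)
  rw [le_div_iff₀ (by simp), ← h]
  simp only [Fintype.card_prod, Fintype.card_fin] at this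
  exact_mod_cast (by omega : 3 * (b : ℕ) ≤ N.rank)

theorem tmr2 : tmr (A F) ≤ 2 := by
  refine csSup_le' ?_
  rintro _ ⟨T, ⟨⟨hT, hs⟩, -⟩, rfl⟩
  by_cases c : ∃ s t, ((0, s), (0, t)) ∈ T
  · obtain ⟨s, t, h⟩ := c
    have h' : ∀ s' t', ((1, s'), (2, t')) ∉ T := fun s' t' h' => by
      rcases hT _ h _ h' with h | h <;> simpa [A] using hs h
    refine mr_le (k := Fin 2) (.of fun p => ![1, 1, !![0, 1; 1, 1]] p.1 p.2)
      (.of fun k q => ![1, 1, !![-1, 1; 1, 0]] q.1 k q.2) ?_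
    rintro ⟨i, s⟩ ⟨j, t⟩ a
    fin_cases i <;> fin_cases j <;> fin_cases s <;> fin_cases t <;>
      simp +contextual [restr, A, mul_apply, h', eq_comm]
  · push Not at c
    refine mr_le (k := Fin 2) (.of fun p => (1 : Matrix _ _ F) p.2)
      (.of fun k q => ![!![0, 1; 1, 1], 1, 1] q.1 k q.2) ?_
    rintro ⟨i, s⟩ ⟨j, t⟩ a
    fin_cases i <;> fin_cases j <;> fin_cases s <;> fin_cases t <;>
      simp +contextual [restr, A, mul_apply, c, eq_comm]

end H11.PM1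

open H11.PM1

theorem Pool.Agent.Results.MP_f8e91b_al.Counter.result (F : Type*) [Field F] :
    ∃ A : Matrix (Fin 3 × Fin 2) (Fin 3 × Fin 2) (Option F),
      (tmr A : ℝ) < fmr A ∧ fmr A = mr A ∧ mr A = 3 := by
  have h1 : (mr (A F) : ℝ) ≤ 3 := by exact_mod_cast mr3 F
  have h2 : (tmr (A F) : ℝ) ≤ 2 := by exact_mod_cast tmr2 F
  have h3 := fmr3 F
  have h4 := fmr_le_mr (A F)
  exact ⟨A F, by linarith, by linarith, by exact_mod_cast h1.antisymm (h3.trans h4)⟩
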